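import Pool.Agent.H36.Mix

open Pool.Agent.H36.VDel Pool.Agent.H36.Mix

theorem Pool.Agent.Results.MP_a6fb51_lc.SetCoverHard.result (c : ℝ) (hc : 1 ≤ c) :
    ApproxMdim c → ApproxSC (2 * c) :=
  transfer (by linarith)
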